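import Mathlib
import Pool.Agent.Q222.FS.Back

/-!
# First-move self-regulating pushdown automata form an infinite hierarchy (MP_e3bf5d)
-/

set_option autoImplicit false

namespace Pool.Agent.Results.MP_e3bf5d_lc.Hierarchy

open Q222.FS

theorem FSPDA_iff {n : ℕ} {Λ : Type} (L : Set (List Λ)) :
    L ∈ FSPDA n Λ ↔ ∃ P : LP Λ n, P.Lang = L := by
  constructor
  · rintro ⟨M, rfl⟩
    exact ⟨lp n M, lp_lang⟩
  · rintro ⟨P, rfl⟩
    exact ⟨sp P, sp_lang⟩

/-- For every `n`, the family of the languages of the `n`-turn first-move self-regulating pushdown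
automata is contained in the family for `n + 1`, and the inclusion is proper for a suitable finite
alphabet. -/
theorem result (n : ℕ) : (∀ Λ : Type, FSPDA n Λ ⊆ FSPDA (n + 1) Λ) ∧
    ∃ (Λ : Type) (_ : Finite Λ), FSPDA n Λ ⊂ FSPDA (n + 1) Λ := by
  have hsub : ∀ Λ : Type, FSPDA n Λ ⊆ FSPDA (n + 1) Λ := by
    intro Λ L hL
    rw [FSPDA_iff] at hL ⊢
    obtain ⟨P, rfl⟩ := hL
    exact ⟨ext P, ext_lang⟩
  refine ⟨hsub, Fin (n + 2) × Bool, inferInstance, hsub _, fun h => ?_⟩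
  have h1 : {w : List (Fin (n + 2) × Bool) | Srt (rk (n + 1)) w ∧ ∃ m, ∀ a, w.count a = m} ∈
      FSPDA (n + 1) (Fin (n + 2) × Bool) := by
    rw [FSPDA_iff]
    exact ⟨cp (n + 1), cp_lang⟩
  obtain ⟨P, hP⟩ := (FSPDA_iff _).1 (h h1)
  have e : (instBEqProd : BEq (Fin (n + 2) × Bool)) = instBEqOfDecidableEq :=
    lawful_beq_subsingleton _ _
  rw [e] at hP
  have h3 := cp_exists (n := n + 1)
  rw [e] at h3
  have h2 := lower (rk_inj (n + 1)) P hP h3
  simp only [Fintype.card_prod, Fintype.card_fin, Fintype.card_bool] at h2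
  omega

end Pool.Agent.Results.MP_e3bf5d_lc.Hierarchy
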